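import Pool.Agent.H78.GX.H6.N4D.TA
import Pool.Agent.H22.MR.Cheb

/-!
# Row MER of n4d_modules: Mertens' first theorem
-/

set_option autoImplicit false

open Finset
open scoped ArithmeticFunction.vonMangoldt

namespace Pool.Agent.H78.GX.H67.N4D

open Pool.Agent.H6.N4D Pool.Agent.H78.GX.H6.N4D Pool.Agent.H78.GX

theorem nonprime_bound : ∃ C : ℝ, 0 ≤ C ∧ ∀ s : Finset ℕ,
    ∑ n ∈ s.filter (fun n => ¬ n.Prime), Λ n / n ≤ C := by
  have hs := ArithmeticFunction.vonMangoldt.summable_residueClass_non_primes_div (0 : ZMod 1)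
  have h0 : ∀ n : ℕ, 0 ≤ (if n.Prime then 0 else
      ArithmeticFunction.vonMangoldt.residueClass (0 : ZMod 1) n) / (n : ℝ) := by
    intro n
    split_ifs
    · simp
    · exact div_nonneg (ArithmeticFunction.vonMangoldt.residueClass_nonneg _ n) (Nat.cast_nonneg n)
  refine ⟨∑' n : ℕ, (if n.Prime then 0 else
      ArithmeticFunction.vonMangoldt.residueClass (0 : ZMod 1) n) / (n : ℝ),
    tsum_nonneg h0, fun s => ?_⟩
  have h1 : ∑ n ∈ s.filter (fun n => ¬ n.Prime), Λ n / n =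
      ∑ n ∈ s.filter (fun n => ¬ n.Prime), (if n.Prime then 0 else
      ArithmeticFunction.vonMangoldt.residueClass (0 : ZMod 1) n) / (n : ℝ) := by
    apply Finset.sum_congr rfl
    intro n hn
    rw [Finset.mem_filter] at hn
    rw [if_neg hn.2]
    congr 1
    unfold ArithmeticFunction.vonMangoldt.residueClass
    rw [Set.indicator_of_mem]
    exact Subsingleton.elim _ _
  rw [h1]
  exact hs.sum_le_tsum _ (fun n _ => h0 n)

theorem pf_MER : T_MER := by
  obtain ⟨C, hC, hnp⟩ := nonprime_bound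
  refine ⟨C + 7, fun x hx => ?_⟩
  set v : ℕ := ⌊x⌋₊ with hv
  have hv1 : 1 ≤ v := (Nat.one_le_floor_iff x).2 hx
  have hv1' : (1 : ℝ) ≤ v := by exact_mod_cast hv1
  have hvx : (v : ℝ) ≤ x := Nat.floor_le (by linarith)
  have hxv : x < v + 1 := Nat.lt_floor_add_one x
  have e1 : Pr 1 x = (Icc 1 v).filter Nat.Prime := by
    unfold Pr
    rw [Nat.floor_one, ← hv]
    ext p
    simp only [mem_filter, mem_Ioc, mem_Icc]
    constructor
    · rintro ⟨⟨h1, h2⟩, h3⟩
      exact ⟨⟨h1.le, h2⟩, h3⟩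
    · rintro ⟨⟨h1, h2⟩, h3⟩
      exact ⟨⟨h3.one_lt, h2⟩, h3⟩
  have h1 := Pool.Agent.H22.MR.mertens_ge hv1
  have h1' := Pool.Agent.H22.MR.mertens_le hv1
  have h2 := Finset.sum_filter_add_sum_filter_not (Icc 1 v) Nat.Prime
    (fun d => Λ d / (d : ℝ))
  have h3 := hnp (Icc 1 v)
  have h3' : 0 ≤ ∑ n ∈ (Icc 1 v).filter (fun n => ¬ n.Prime), Λ n / (n : ℝ) :=
    Finset.sum_nonneg fun n _ =>
      div_nonneg ArithmeticFunction.vonMangoldt_nonneg (Nat.cast_nonneg n)
  have h4 : ∑ p ∈ (Icc 1 v).filter Nat.Prime, Real.log p / p =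
      ∑ p ∈ (Icc 1 v).filter Nat.Prime, Λ p / (p : ℝ) := by
    apply Finset.sum_congr rfl
    intro p hp
    rw [ArithmeticFunction.vonMangoldt_apply_prime (Finset.mem_filter.1 hp).2]
  have h5 : Real.log v ≤ Real.log x := Real.log_le_log (by linarith) hvx
  have h6 : Real.log x ≤ Real.log v + 1 := by
    have h7 : Real.log x ≤ Real.log (2 * v) := Real.log_le_log (by linarith) (by linarith)
    rw [Real.log_mul (by norm_num) (by linarith)] at h7
    have h8 : Real.log 2 ≤ 1 := by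
      have := Real.log_two_lt_d9
      linarith
    linarith
  rw [e1, h4, abs_le]
  constructor <;> linarith

end Pool.Agent.H78.GX.H67.N4D
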